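import Pool.Agent.Helper63.Sey3.Goals

/-!
# Packet REC of project SEY3: the tuned thresholds
-/

set_option autoImplicit false

namespace Pool.Agent.Helper87.Sey3

open Pool.Agent.Helper41.Girth4 Pool.Agent.Helper63.Sey3
open Pool.Agent.Helper8.Sey (near NearBd near_symm near_three)

variable {V : Type} (P : Sy V)

/-! ### Dependence on the thresholds -/

theorem proc_congr (R R' : ℕ → V → ZMod P.N → ℕ) (ω : P.Om) (j : ℕ)
    (h : ∀ i ≤ j, R i = R' i) : P.proc R ω j = P.proc R' ω j := by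
  induction j with
  | zero =>
    unfold Sy.proc
    rw [h 0 le_rfl]
  | succ j ih =>
    have h1 := ih fun i hi => h i (by omega)
    unfold Sy.proc
    rw [h1, h (j + 1) le_rfl]

theorem T_congr (R R' : ℕ → V → ZMod P.N → ℕ) (ω : P.Om) (j : ℕ) (v : V)
    (h : ∀ i ≤ j, R i = R' i) : P.T R ω j v ↔ P.T R' ω j v := by
  unfold Sy.T
  rw [proc_congr P R R' ω j h]

theorem U_congr (R R' : ℕ → V → ZMod P.N → ℕ) (ω : P.Om) (j : ℕ) (v : V)
    (h : ∀ i < j, R i = R' i) : P.U R ω j v ↔ P.U R' ω j v := by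
  rw [P.U_iff, P.U_iff]
  constructor
  · intro h1 i hi h2
    exact h1 i hi ((T_congr P R R' ω i v fun k hk => h k (by omega)).2 h2)
  · intro h1 i hi h2
    exact h1 i hi ((T_congr P R R' ω i v fun k hk => h k (by omega)).1 h2)

theorem Fo_congr (R R' : ℕ → V → ZMod P.N → ℕ) (ω : P.Om) (j : ℕ) (v : V) (g : ZMod P.N)
    (h : ∀ i < j, R i = R' i) : P.Fo R ω j v g ↔ P.Fo R' ω j v g := by
  cases j with
  | zero => exact Iff.rfl
  | succ j =>
    unfold Sy.Fo
    constructor
    · rintro ⟨u, h1, h2, h3⟩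
      exact ⟨u, h1, h2, (T_congr P R R' ω j u fun k hk => h k (by omega)).1 h3⟩
    · rintro ⟨u, h1, h2, h3⟩
      exact ⟨u, h1, h2, (T_congr P R R' ω j u fun k hk => h k (by omega)).2 h3⟩

/-! ### Dependence on the coins -/

/-- The outcomes agree up to the coins of times `≥ j` and the proposals for the insertion. -/
def Sim (j : ℕ) (ω ω' : P.Om) : Prop :=
  ∀ w, (ω w).1 = (ω' w).1 ∧ (ω w).2.1 = (ω' w).2.1 ∧ ∀ i < j, P.coin (ω w) i = P.coin (ω' w) i

theorem col_sim {j : ℕ} {ω ω' : P.Om} (h : Sim P j ω ω') : P.col ω = P.col ω' := by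
  classical
  have hal : ∀ v, P.al (ω v) = P.al (ω' v) := by
    intro v
    unfold Sy.al
    rw [(h v).1]
  have hco : ∀ v, P.co (ω v) = P.co (ω' v) := by
    intro v
    unfold Sy.co
    rw [(h v).1]
  have hrd : ∀ v, P.rd (ω v) = P.rd (ω' v) := by
    intro v
    unfold Sy.rd
    rw [(h v).2.1]
  have hpm : ∀ v, P.pm (ω v) = P.pm (ω' v) := by
    intro v
    unfold Sy.pm
    rw [(h v).2.1]
  have hpk : ∀ c v, P.pk ω c v = P.pk ω' c v := by
    intro c v
    unfold Sy.pk
    rw [hpm v]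
  have h0 : P.c0 ω = P.c0 ω' := by
    funext v
    unfold Sy.c0
    refine if_congr ?_ (by rw [hco]) rfl
    simp only [hal, hco]
  have hst : ∀ i, P.st ω i = P.st ω' i := by
    intro i
    induction i with
    | zero => exact h0
    | succ i ih =>
      rw [P.st_succ, P.st_succ, ih]
      funext v
      unfold Sy.stp
      refine if_congr Iff.rfl rfl (if_congr ?_ (by rw [hpk]) rfl)
      simp only [hrd, hpk]
  exact hst P.Z

theorem isC_sim {j : ℕ} {ω ω' : P.Om} (h : Sim P j ω ω') (v : V) (g : ZMod P.N) :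
    P.isC ω v g ↔ P.isC ω' v g := by
  unfold Sy.isC
  rw [col_sim P h]

theorem isC_sim' {j : ℕ} {ω ω' : P.Om} (h : Sim P j ω ω') : P.isC ω = P.isC ω' := by
  funext v g
  exact propext (isC_sim P h v g)

theorem proc_sim (R : ℕ → V → ZMod P.N → ℕ) {j : ℕ} {ω ω' : P.Om} (h : Sim P j ω ω') (i : ℕ)
    (hi : i < j) : P.proc R ω i = P.proc R ω' i := by
  induction i with
  | zero =>
    unfold Sy.proc
    refine Prod.ext rfl (funext fun v => ?_)
    show (∃ g, P.isC ω v g ∧ P.coin (ω v) 0 < R 0 v g) =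
      (∃ g, P.isC ω' v g ∧ P.coin (ω' v) 0 < R 0 v g)
    rw [(h v).2.2 0 hi, isC_sim' P h]
  | succ i ih =>
    have h1 := ih (by omega)
    have h2 : P.isC ω = P.isC ω' := isC_sim' P h
    unfold Sy.proc
    rw [h1]
    refine Prod.ext rfl (funext fun v => ?_)
    simp only
    rw [(h v).2.2 (i + 1) hi, h2]

theorem T_sim (R : ℕ → V → ZMod P.N → ℕ) {j : ℕ} {ω ω' : P.Om} (h : Sim P j ω ω') (i : ℕ)
    (hi : i < j) (v : V) : P.T R ω i v ↔ P.T R ω' i v := by
  unfold Sy.T
  rw [proc_sim P R h i hi]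

theorem U_sim (R : ℕ → V → ZMod P.N → ℕ) {j : ℕ} {ω ω' : P.Om} (h : Sim P j ω ω') (v : V) :
    P.U R ω j v ↔ P.U R ω' j v := by
  rw [P.U_iff, P.U_iff]
  constructor
  · intro h1 i hi h2
    exact h1 i hi ((T_sim P R h i hi v).2 h2)
  · intro h1 i hi h2
    exact h1 i hi ((T_sim P R h i hi v).1 h2)

theorem Fo_sim (R : ℕ → V → ZMod P.N → ℕ) {j : ℕ} {ω ω' : P.Om} (h : Sim P j ω ω') (v : V)
    (g : ZMod P.N) : P.Fo R ω j v g ↔ P.Fo R ω' j v g := by
  cases j with
  | zero => exact Iff.rfl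
  | succ j =>
    unfold Sy.Fo
    constructor
    · rintro ⟨u, h1, h2, h3⟩
      exact ⟨u, h1, (isC_sim P h u _).1 h2, (T_sim P R h j (by omega) u).1 h3⟩
    · rintro ⟨u, h1, h2, h3⟩
      exact ⟨u, h1, (isC_sim P h u _).2 h2, (T_sim P R h j (by omega) u).2 h3⟩

open Classical in
/-- exchange of the values `a`, `b` of the coin of time `j` of `v` -/
noncomputable def ex (v : V) (j : Fin P.J) (a b : Fin P.L) (ω : P.Om) : P.Om :=
  Function.update ω v ((ω v).1, (ω v).2.1,
    Function.update (ω v).2.2.1 j (Equiv.swap a b ((ω v).2.2.1 j)), (ω v).2.2.2)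

theorem ex_ex (v : V) (j : Fin P.J) (a b : Fin P.L) (ω : P.Om) :
    ex P v j a b (ex P v j a b ω) = ω := by
  classical
  unfold ex
  funext w
  by_cases hw : w = v
  · subst hw
    simp
  · simp [Function.update_of_ne hw]

/-- `ex` as an equivalence -/
noncomputable def exE (v : V) (j : Fin P.J) (a b : Fin P.L) : P.Om ≃ P.Om where
  toFun := ex P v j a b
  invFun := ex P v j a b
  left_inv := ex_ex P v j a b
  right_inv := ex_ex P v j a b

theorem ex_sim (v : V) (j : Fin P.J) (a b : Fin P.L) (ω : P.Om) :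
    Sim P j ω (ex P v j a b ω) := by
  classical
  intro w
  unfold ex
  by_cases hw : w = v
  · subst hw
    refine ⟨by simp, by simp, fun i hi => ?_⟩
    have hiJ : i < P.J := hi.trans j.2
    unfold Sy.coin
    rw [dif_pos hiJ, dif_pos hiJ, Function.update_self]
    have : (⟨i, hiJ⟩ : Fin P.J) ≠ j := by
      intro h
      have := congrArg Fin.val h
      simp only at this
      omega
    simp only
    rw [Function.update_of_ne this]
  · rw [Function.update_of_ne hw]
    exact ⟨rfl, rfl, fun _ _ => rfl⟩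

theorem ex_coin (v : V) (j : Fin P.J) (a b : Fin P.L) (ω : P.Om) :
    (ex P v j a b ω v).2.2.1 j = Equiv.swap a b ((ω v).2.2.1 j) := by
  classical
  unfold ex
  rw [Function.update_self]
  simp only
  rw [Function.update_self]

theorem Pr_coin_eq (X : P.Om → Prop) (v : V) (j : Fin P.J)
    (hX : ∀ ω ω', Sim P j ω ω' → X ω → X ω') (a b : Fin P.L) :
    Pr (fun ω : P.Om => X ω ∧ (ω v).2.2.1 j = a) =
      Pr (fun ω : P.Om => X ω ∧ (ω v).2.2.1 j = b) := by
  rw [← Pr_equiv (exE P v j a b) (fun ω : P.Om => X ω ∧ (ω v).2.2.1 j = a)]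
  apply Pr_congr
  intro ω
  have h1 : (exE P v j a b) ω = ex P v j a b ω := rfl
  rw [h1, ex_coin]
  have h2 : X (ex P v j a b ω) ↔ X ω := by
    constructor
    · intro h
      have := hX _ _ (ex_sim P v j a b (ex P v j a b ω)) h
      rwa [ex_ex] at this
    · exact hX _ _ (ex_sim P v j a b ω)
  have h3 : Equiv.swap a b ((ω v).2.2.1 j) = a ↔ (ω v).2.2.1 j = b := by
    rw [← Equiv.eq_symm_apply, Equiv.symm_swap, Equiv.swap_apply_left]
  rw [h2, h3]

variable [Fintype V]

theorem Pr_coin (X : P.Om → Prop) (v : V) (j : Fin P.J)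
    (hX : ∀ ω ω', Sim P j ω ω' → X ω → X ω') (a : Fin P.L) :
    Pr (fun ω : P.Om => X ω ∧ (ω v).2.2.1 j = a) = Pr X / P.L := by
  have h1 := Pr_fiber (s := (Finset.univ : Finset (Fin P.L))) X (fun ω => (ω v).2.2.1 j)
    (fun _ _ => Finset.mem_univ _)
  have h2 : ∑ b : Fin P.L, Pr (fun ω : P.Om => X ω ∧ (ω v).2.2.1 j = b)
      = ∑ _b : Fin P.L, Pr (fun ω : P.Om => X ω ∧ (ω v).2.2.1 j = a) :=
    Finset.sum_congr rfl fun b _ => Pr_coin_eq P X v j hX b a
  rw [h2, Finset.sum_const, Finset.card_univ, Fintype.card_fin, nsmul_eq_mul] at h1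
  have hL : (0 : ℝ) < P.L := by exact_mod_cast P.hL
  rw [h1]
  field_simp

theorem Pr_coin_lt (X : P.Om → Prop) (v : V) (j : ℕ) (hj : j < P.J)
    (hX : ∀ ω ω', Sim P j ω ω' → X ω → X ω') (m : ℕ) (hm : m ≤ P.L) :
    Pr (fun ω : P.Om => X ω ∧ P.coin (ω v) j < m) = Pr X * m / P.L := by
  classical
  have h1 := Pr_fiber (s := (Finset.univ.filter fun a : Fin P.L => (a : ℕ) < m))
    (fun ω : P.Om => X ω ∧ P.coin (ω v) j < m) (fun ω => (ω v).2.2.1 ⟨j, hj⟩)
    (by
      rintro ω ⟨_, h⟩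
      unfold Sy.coin at h
      rw [dif_pos hj] at h
      simpa using h)
  rw [h1]
  have h2 : ∀ a ∈ (Finset.univ.filter fun a : Fin P.L => (a : ℕ) < m),
      Pr (fun ω : P.Om => (X ω ∧ P.coin (ω v) j < m) ∧ (ω v).2.2.1 ⟨j, hj⟩ = a) =
        Pr X / P.L := by
    intro a ha
    rw [← Pr_coin P X v ⟨j, hj⟩ hX a]
    apply Pr_congr
    intro ω
    constructor
    · rintro ⟨⟨h3, _⟩, h4⟩
      exact ⟨h3, h4⟩
    · rintro ⟨h3, h4⟩
      refine ⟨⟨h3, ?_⟩, h4⟩
      unfold Sy.coin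
      rw [dif_pos hj, h4]
      simpa using ha
  rw [Finset.sum_congr rfl h2, Finset.sum_const, Fin.card_filter_val_lt, min_eq_right hm,
    nsmul_eq_mul]
  ring

/-! ### The colours -/

omit [Fintype V] in
theorem isC_col (ω : P.Om) (v : V) {a : ℕ} (ha : a < P.qm) :
    P.isC ω v (P.cl (P.part v) a) ↔ P.col ω v = some ⟨a, ha.trans_le P.hqm⟩ := by
  rw [P.isC_iff ω v (P.part_lt v) ha]
  constructor
  · rintro ⟨-, x, h1, h2⟩
    rw [h1]
    congr 1
    exact Fin.ext h2
  · intro h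
    exact ⟨rfl, _, h, rfl⟩

/-- Sum over some of the colours. -/
theorem sum_colours_le (E : P.Om → Prop) (v : V) (S : Finset (Fin P.q)) :
    ∑ b ∈ S, Pr (fun ω : P.Om => E ω ∧ P.col ω v = some b) ≤ Pr E := by
  classical
  have h1 := Pr_fiber (s := S.image some)
    (fun ω : P.Om => E ω ∧ P.col ω v ∈ S.image some) (fun ω => P.col ω v)
    (fun ω h => h.2)
  have h2 : Pr (fun ω : P.Om => E ω ∧ P.col ω v ∈ S.image some) ≤ Pr E :=
    Pr_mono fun ω h => h.1
  rw [h1, Finset.sum_image (fun x _ y _ h => Option.some.inj h)] at h2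
  refine le_trans (le_of_eq ?_) h2
  apply Finset.sum_congr rfl
  intro b hb
  apply Pr_congr
  intro ω
  constructor
  · rintro ⟨h3, h4⟩
    exact ⟨⟨h3, by rw [h4]; exact Finset.mem_image_of_mem _ hb⟩, h4⟩
  · rintro ⟨⟨h3, _⟩, h4⟩
    exact ⟨h3, h4⟩

/-- The probability of a colour. -/
theorem Pr_col (hE : GoalEX) (v : V) (a : Fin P.q) :
    Pr (fun ω : P.Om => P.col ω v = some a) =
      (1 - Pr (fun ω : P.Om => P.col ω v = none)) / P.q := by
  classical
  have hq : (0 : ℝ) < P.q := by exact_mod_cast P.q_pos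
  have h1 := Pr_fiber (s := (Finset.univ : Finset (Fin P.q)).image some)
    (fun ω : P.Om => ¬ P.col ω v = none) (fun ω => P.col ω v)
    (by
      intro ω h
      obtain ⟨x, hx⟩ := Option.ne_none_iff_exists'.1 h
      rw [hx]
      exact Finset.mem_image_of_mem _ (Finset.mem_univ x))
  rw [Finset.sum_image (fun x _ y _ h => Option.some.inj h)] at h1
  have h2 : ∀ b : Fin P.q, Pr (fun ω : P.Om => ¬ P.col ω v = none ∧ P.col ω v = some b) =
      Pr (fun ω : P.Om => P.col ω v = some a) := by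
    intro b
    have h3 := hE V P (fun _ => True) ∅ (fun _ _ _ _ => trivial) v b a
      (fun g hg => absurd hg (Finset.notMem_empty g)) (fun g hg => absurd hg (Finset.notMem_empty g))
    have h4 : Pr (fun ω : P.Om => ¬ P.col ω v = none ∧ P.col ω v = some b) =
        Pr (fun ω : P.Om => True ∧ P.col ω v = some b) := by
      apply Pr_congr
      intro ω
      constructor
      · rintro ⟨_, h⟩
        exact ⟨trivial, h⟩
      · rintro ⟨_, h⟩
        exact ⟨by rw [h]; exact Option.some_ne_none b, h⟩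
    rw [h4, h3]
    apply Pr_congr
    intro ω
    exact ⟨fun h => h.2, fun h => ⟨trivial, h⟩⟩
  have hne : Nonempty P.Om := inferInstance
  rw [Finset.sum_congr rfl fun b _ => h2 b, Finset.sum_const, Finset.card_univ,
    Fintype.card_fin, nsmul_eq_mul, Pr_not] at h1
  rw [h1]
  field_simp

/-! ### The bounds -/

/-- For at least `D` colours exchangeable with `a`. -/
theorem D_mul_le (hE : GoalEX) (E : P.Om → Prop) (W : Finset (ZMod P.N))
    (hEW : ∀ ω ω', P.Agree W ω ω' → E ω → E ω') (hWc : W.card ≤ P.J) (v : V) {a : ℕ}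
    (ha : a < P.qm) (haW : P.cl (P.part v) a ∉ W) :
    P.D * Pr (fun ω : P.Om => E ω ∧ P.isC ω v (P.cl (P.part v) a)) ≤ Pr E := by
  classical
  let S : Finset (Fin P.q) := Finset.univ.filter fun b =>
    ∀ g ∈ W, ¬ ((b : ℕ) < P.qm ∧ P.cl (P.part v) b = g)
  have hS : P.D ≤ S.card := by
    have h1 : (Finset.univ \ S).card ≤ W.card := by
      refine Finset.card_le_card_of_injOn (fun b => P.cl (P.part v) b) ?_ ?_
      · intro b hb
        have hb' : b ∉ S := (Finset.mem_sdiff.1 (Finset.mem_coe.1 hb)).2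
        simp only [S, Finset.mem_filter, Finset.mem_univ, true_and] at hb'
        push Not at hb'
        obtain ⟨g, hg, _, h3⟩ := hb'
        show P.cl (P.part v) b ∈ (W : Set (ZMod P.N))
        rw [h3]
        exact hg
      · intro b hb b' hb' h
        have hlt : ∀ b : Fin P.q, b ∈ ((Finset.univ \ S : Finset (Fin P.q)) : Set (Fin P.q)) →
            (b : ℕ) < P.qm := by
          intro b hb
          have hb' : b ∉ S := (Finset.mem_sdiff.1 (Finset.mem_coe.1 hb)).2
          simp only [S, Finset.mem_filter, Finset.mem_univ, true_and] at hb'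
          push Not at hb'
          obtain ⟨g, hg, h2, _⟩ := hb'
          exact h2
        exact Fin.ext (P.cl_inj (P.part_lt v) (P.part_lt v) (hlt b hb) (hlt b' hb') h).2
    have h2 : (Finset.univ \ S).card + S.card = P.q := by
      rw [Finset.card_sdiff_add_card_eq_card (Finset.subset_univ S), Finset.card_univ,
        Fintype.card_fin]
    have h3 := P.hq
    omega
  let aq : Fin P.q := ⟨a, ha.trans_le P.hqm⟩
  have haS : ∀ g ∈ W, ¬ ((aq : ℕ) < P.qm ∧ P.cl (P.part v) aq = g) := by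
    rintro g hg ⟨_, h⟩
    apply haW
    have h' : P.cl (P.part v) a = g := h
    rw [h']
    exact hg
  have h4 : ∀ b ∈ S, Pr (fun ω : P.Om => E ω ∧ P.col ω v = some b) =
      Pr (fun ω : P.Om => E ω ∧ P.isC ω v (P.cl (P.part v) a)) := by
    intro b hb
    have hb' : ∀ g ∈ W, ¬ ((b : ℕ) < P.qm ∧ P.cl (P.part v) b = g) := (Finset.mem_filter.1 hb).2
    rw [hE V P E W hEW v b aq hb' haS]
    apply Pr_congr
    intro ω
    rw [isC_col P ω v ha]
  have h5 := sum_colours_le P E v S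
  rw [Finset.sum_congr rfl h4, Finset.sum_const, nsmul_eq_mul] at h5
  refine le_trans ?_ h5
  apply mul_le_mul_of_nonneg_right _ (Pr_nonneg _)
  exact_mod_cast hS

theorem Pr_Fo_le (hE : GoalEX) (hW : GoalWIN) (R : ℕ → V → ZMod P.N → ℕ) (j : ℕ) (hj : j < P.J)
    (t : ℝ) (ht : 0 ≤ t)
    (ih : ∀ i < j, ∀ (v : V), ∀ a < P.qm,
      Pr (fun ω : P.Om => P.T R ω i v ∧ P.isC ω v (P.cl (P.part v) a)) ≤ t)
    (v : V) (a : ℕ) (ha : a < P.qm) :
    Pr (fun ω : P.Om => P.U R ω j v ∧ P.Fo R ω j v (P.cl (P.part v) a) ∧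
      P.isC ω v (P.cl (P.part v) a)) ≤ t := by
  classical
  cases j with
  | zero =>
    have : Pr (fun ω : P.Om => P.U R ω 0 v ∧ P.Fo R ω 0 v (P.cl (P.part v) a) ∧
        P.isC ω v (P.cl (P.part v) a)) = Pr (fun _ : P.Om => False) := by
      apply Pr_congr
      intro ω
      constructor
      · rintro ⟨_, h, _⟩
        exact h
      · exact fun h => h.elim
    rw [this, Pr_false]
    exact ht
  | succ i =>
    obtain ⟨m, hm, b, hb, hn, hgb, hc⟩ := P.cand (P.part_lt v) ha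
    have hcard := P.hnear.2 v m hm hn
    rw [Nat.card_eq_fintype_card, Fintype.card_subtype] at hcard
    have hD : (0 : ℝ) < P.D := by exact_mod_cast P.hD
    have h1 : ∀ u ∈ (Finset.univ.filter fun u : V => P.H.Adj v u ∧ P.part u = m),
        Pr (fun ω : P.Om => (P.isC ω u (P.cl (P.part v) a - 1) ∧ P.T R ω i u) ∧
          P.isC ω v (P.cl (P.part v) a)) ≤ t / P.D := by
      intro u hu
      have hum : P.part u = m := (Finset.mem_filter.1 hu).2.2
      have h2 := D_mul_le P hE (fun ω => P.isC ω u (P.cl (P.part v) a - 1) ∧ P.T R ω i u)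
        (P.Win i (P.cl (P.part v) a - 1))
        (by
          rintro ω ω' hA ⟨h3, h4⟩
          refine ⟨((hA u).1 _ (P.self_mem_Win _ _)).1 h3, ?_⟩
          exact ((hW V P R i _ ω ω' hA u h3).2).1 h4)
        ((P.card_Win_le _ _).trans (by omega))
        v ha (P.not_mem_Win (by omega) _)
      have h6 : Pr (fun ω : P.Om => P.isC ω u (P.cl (P.part v) a - 1) ∧ P.T R ω i u) ≤ t := by
        refine le_trans (le_of_eq (Pr_congr fun ω => ?_)) (ih i (by omega) u b hb)
        rw [hgb, hum]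
        exact and_comm
      rw [le_div_iff₀ hD, mul_comm]
      exact h2.trans h6
    calc Pr (fun ω : P.Om => P.U R ω (i + 1) v ∧ P.Fo R ω (i + 1) v (P.cl (P.part v) a) ∧
            P.isC ω v (P.cl (P.part v) a))
        ≤ Pr (fun ω : P.Om => ∃ u ∈ (Finset.univ.filter fun u : V => P.H.Adj v u ∧ P.part u = m),
            (P.isC ω u (P.cl (P.part v) a - 1) ∧ P.T R ω i u) ∧
              P.isC ω v (P.cl (P.part v) a)) := by
          apply Pr_mono
          rintro ω ⟨_, ⟨u, h3, h4, h5⟩, h6⟩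
          refine ⟨u, ?_, ⟨h4, h5⟩, h6⟩
          rw [Finset.mem_filter]
          exact ⟨Finset.mem_univ _, h3.symm, hc ω u h4⟩
      _ ≤ ∑ u ∈ (Finset.univ.filter fun u : V => P.H.Adj v u ∧ P.part u = m),
            Pr (fun ω : P.Om => (P.isC ω u (P.cl (P.part v) a - 1) ∧ P.T R ω i u) ∧
              P.isC ω v (P.cl (P.part v) a)) := Pr_exists_le _ _
      _ ≤ ∑ _u ∈ (Finset.univ.filter fun u : V => P.H.Adj v u ∧ P.part u = m), t / P.D :=
          Finset.sum_le_sum h1
      _ = ((Finset.univ.filter fun u : V => P.H.Adj v u ∧ P.part u = m).card : ℝ) * (t / P.D) := by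
          rw [Finset.sum_const, nsmul_eq_mul]
      _ ≤ P.D * (t / P.D) := by
          apply mul_le_mul_of_nonneg_right
          · exact_mod_cast hcard
          · positivity
      _ = t := by field_simp

theorem Pr_U_ge (R : ℕ → V → ZMod P.N → ℕ) (s t : ℝ) (j : ℕ)
    (hs : ∀ (v : V), ∀ a < P.qm, s ≤ Pr (fun ω : P.Om => P.isC ω v (P.cl (P.part v) a)))
    (ih : ∀ i < j, ∀ (v : V), ∀ a < P.qm,
      Pr (fun ω : P.Om => P.T R ω i v ∧ P.isC ω v (P.cl (P.part v) a)) ≤ t)
    (v : V) (a : ℕ) (ha : a < P.qm) :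
    s - j * t ≤ Pr (fun ω : P.Om => P.U R ω j v ∧ P.isC ω v (P.cl (P.part v) a)) := by
  induction j with
  | zero =>
    have h1 : Pr (fun ω : P.Om => P.U R ω 0 v ∧ P.isC ω v (P.cl (P.part v) a)) =
        Pr (fun ω : P.Om => P.isC ω v (P.cl (P.part v) a)) := by
      apply Pr_congr
      intro ω
      exact ⟨fun h => h.2, fun h => ⟨trivial, h⟩⟩
    rw [h1]
    simpa using hs v a ha
  | succ j ihj =>
    have h1 := ihj fun i hi => ih i (by omega)
    have h2 := ih j (by omega) v a ha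
    have h3 : Pr (fun ω : P.Om => P.U R ω (j + 1) v ∧ P.isC ω v (P.cl (P.part v) a))
        = Pr (fun ω : P.Om => P.U R ω j v ∧ P.isC ω v (P.cl (P.part v) a)) -
          Pr (fun ω : P.Om => (P.U R ω j v ∧ P.isC ω v (P.cl (P.part v) a)) ∧ P.T R ω j v) := by
      rw [← Pr_and_not]
      apply Pr_congr
      intro ω
      rw [P.U_succ]
      tauto
    have h4 : Pr (fun ω : P.Om => (P.U R ω j v ∧ P.isC ω v (P.cl (P.part v) a)) ∧ P.T R ω j v)
        ≤ Pr (fun ω : P.Om => P.T R ω j v ∧ P.isC ω v (P.cl (P.part v) a)) := by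
      apply Pr_mono
      rintro ω ⟨⟨_, h⟩, h'⟩
      exact ⟨h', h⟩
    rw [h3]
    push_cast
    linarith

/-- The step of the recursion. -/
theorem step (hE : GoalEX) (hW : GoalWIN) (θ : ℝ) (hθ1 : θ < 1)
    (hθ : ∀ v, Pr (fun ω : P.Om => P.col ω v = none) ≤ θ)
    (R : ℕ → V → ZMod P.N → ℕ) (j : ℕ) (hj : j < P.J)
    (ih : ∀ i < j, ∀ (v : V), ∀ a < P.qm,
      Pr (fun ω : P.Om => P.T R ω i v ∧ P.isC ω v (P.cl (P.part v) a)) ≤
        (1 - θ) / ((P.q : ℝ) * P.J)) :
    ∃ R' : ℕ → V → ZMod P.N → ℕ, (∀ i < j, R' i = R i) ∧ ∀ (v : V), ∀ a < P.qm,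
      (1 - θ) / ((P.q : ℝ) * P.J) - 1 / ((P.q : ℝ) * P.L) ≤
          Pr (fun ω : P.Om => P.T R' ω j v ∧ P.isC ω v (P.cl (P.part v) a)) ∧
        Pr (fun ω : P.Om => P.T R' ω j v ∧ P.isC ω v (P.cl (P.part v) a)) ≤
          (1 - θ) / ((P.q : ℝ) * P.J) := by
  classical
  have hq : (0 : ℝ) < P.q := by exact_mod_cast P.q_pos
  have hJ : (0 : ℝ) < P.J := by have := P.hJ; exact_mod_cast (by omega : 0 < P.J)
  have hL : (0 : ℝ) < P.L := by exact_mod_cast P.hL
  have hisC : ∀ (v : V), ∀ a < P.qm,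
      Pr (fun ω : P.Om => P.isC ω v (P.cl (P.part v) a)) =
        (1 - Pr (fun ω : P.Om => P.col ω v = none)) / P.q := by
    intro v a ha
    rw [← Pr_col P hE v ⟨a, ha.trans_le P.hqm⟩]
    apply Pr_congr
    intro ω
    exact isC_col P ω v ha
  obtain ⟨t, ht⟩ : ∃ t : ℝ, t = (1 - θ) / ((P.q : ℝ) * P.J) := ⟨_, rfl⟩
  have ht0 : 0 ≤ t := by
    rw [ht]
    have : 0 ≤ 1 - θ := by linarith
    positivity
  let A : V → ZMod P.N → ℝ := fun v g =>
    Pr (fun ω : P.Om => P.U R ω j v ∧ P.Fo R ω j v g ∧ P.isC ω v g)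
  let B : V → ZMod P.N → ℝ := fun v g =>
    Pr (fun ω : P.Om => P.U R ω j v ∧ ¬ P.Fo R ω j v g ∧ P.isC ω v g)
  let R' : ℕ → V → ZMod P.N → ℕ := fun i v g => if i = j then ⌊P.L * (t - A v g) / B v g⌋₊ else R i v g
  have hR' : ∀ i < j, R' i = R i := by
    intro i hi
    funext v g
    simp only [R', if_neg (by omega : ¬ i = j)]
  refine ⟨R', hR', fun v a ha => ?_⟩
  rw [← ht] at ih ⊢
  obtain ⟨g, hg⟩ : ∃ g, g = P.cl (P.part v) a := ⟨_, rfl⟩
  have hA : A v g ≤ t := by
    simp only [A, hg]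
    exact Pr_Fo_le P hE hW R j hj t ht0 ih v a ha
  have hB0 : 0 ≤ B v g := Pr_nonneg _
  have hBq : B v g ≤ 1 / P.q := by
    have h1 : B v g ≤ Pr (fun ω : P.Om => P.isC ω v (P.cl (P.part v) a)) := by
      apply Pr_mono
      rintro ω ⟨_, _, h⟩
      rw [← hg]
      exact h
    refine h1.trans ?_
    rw [hisC v a ha]
    have h2 := Pr_nonneg (fun ω : P.Om => P.col ω v = none)
    apply div_le_div_of_nonneg_right _ hq.le
    linarith
  have hAB : t ≤ A v g + B v g := by
    have h1 := Pr_U_ge P R ((1 - θ) / P.q) t j (by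
      intro v a ha
      rw [hisC v a ha]
      apply div_le_div_of_nonneg_right _ hq.le
      have := hθ v
      linarith) ih v a ha
    have h2 : Pr (fun ω : P.Om => P.U R ω j v ∧ P.isC ω v (P.cl (P.part v) a))
        = A v g + B v g := by
      rw [Pr_split _ (fun ω : P.Om => P.Fo R ω j v g)]
      simp only [A, B, hg]
      congr 1
      · apply Pr_congr; intro ω; tauto
      · apply Pr_congr; intro ω; tauto
    rw [h2] at h1
    have h3 : ((j : ℝ) + 1) * t ≤ (1 - θ) / P.q := by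
      have h4 : ((j : ℝ) + 1) ≤ P.J := by exact_mod_cast hj
      calc ((j : ℝ) + 1) * t ≤ P.J * t := mul_le_mul_of_nonneg_right h4 ht0
        _ = (1 - θ) / P.q := by rw [ht]; field_simp
    linarith
  obtain ⟨m, hm⟩ : ∃ m : ℕ, m = ⌊P.L * (t - A v g) / B v g⌋₊ := ⟨_, rfl⟩
  have hmL : m ≤ P.L := by
    rw [hm]
    apply Nat.floor_le_of_le
    rcases hB0.eq_or_lt with h | h
    · rw [← h, div_zero]
      exact hL.le
    · rw [div_le_iff₀ h]
      exact mul_le_mul_of_nonneg_left (by linarith) hL.le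
  have hmain : Pr (fun ω : P.Om => P.T R' ω j v ∧ P.isC ω v g)
      = A v g + B v g * m / P.L := by
    have h1 : Pr (fun ω : P.Om => P.T R' ω j v ∧ P.isC ω v g)
        = Pr (fun ω : P.Om => (P.U R ω j v ∧ P.Fo R ω j v g ∧ P.isC ω v g) ∨
          ((P.U R ω j v ∧ ¬ P.Fo R ω j v g ∧ P.isC ω v g) ∧ P.coin (ω v) j < m)) := by
      apply Pr_congr
      intro ω
      have h2 : R' j v g = m := by
        simp only [R', if_true]
        exact hm.symm
      constructor
      · rintro ⟨h3, h5⟩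
        rw [P.T_iff' R' ω j h5, U_congr P R' R ω j v hR', Fo_congr P R' R ω j v g hR', h2] at h3
        obtain ⟨h3, h4⟩ := h3
        by_cases h6 : P.Fo R ω j v g
        · exact Or.inl ⟨h3, h6, h5⟩
        · refine Or.inr ⟨⟨h3, h6, h5⟩, ?_⟩
          rcases h4 with h4 | h4
          · exact absurd h4 h6
          · exact h4
      · rintro (⟨h3, h6, h5⟩ | ⟨⟨h3, h6, h5⟩, h7⟩)
        · refine ⟨?_, h5⟩
          rw [P.T_iff' R' ω j h5, U_congr P R' R ω j v hR', Fo_congr P R' R ω j v g hR']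
          exact ⟨h3, Or.inl h6⟩
        · refine ⟨?_, h5⟩
          rw [P.T_iff' R' ω j h5, U_congr P R' R ω j v hR', Fo_congr P R' R ω j v g hR', h2]
          exact ⟨h3, Or.inr h7⟩
    rw [h1, Pr_or (by tauto), Pr_coin_lt P _ v j hj ?_ m hmL]
    rintro ω ω' hs ⟨h3, h4, h5⟩
    refine ⟨(U_sim P R hs v).1 h3, fun h => h4 ((Fo_sim P R hs v g).2 h), ?_⟩
    exact (isC_sim P hs v g).1 h5
  rw [← hg, hmain]
  rcases hB0.eq_or_lt with h | h
  · have h1 : A v g = t := le_antisymm hA (by linarith)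
    rw [← h, h1]
    simp only [zero_mul, zero_div, add_zero, le_refl, and_true]
    have : 0 ≤ 1 / ((P.q : ℝ) * P.L) := by positivity
    linarith
  · have h1 : 0 ≤ P.L * (t - A v g) / B v g := by
      have : 0 ≤ t - A v g := by linarith
      positivity
    have h2 : (m : ℝ) ≤ P.L * (t - A v g) / B v g := by rw [hm]; exact Nat.floor_le h1
    have h3 : P.L * (t - A v g) / B v g < m + 1 := by rw [hm]; exact Nat.lt_floor_add_one _
    rw [le_div_iff₀ h] at h2
    rw [div_lt_iff₀ h] at h3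
    constructor
    · have h4 : t - A v g - B v g / P.L ≤ B v g * m / P.L := by
        rw [sub_le_iff_le_add, ← add_div, le_div_iff₀ hL]
        linarith
      have h5 : B v g / P.L ≤ 1 / ((P.q : ℝ) * P.L) := by
        rw [div_le_iff₀ hL]
        calc B v g ≤ 1 / P.q := hBq
          _ = 1 / ((P.q : ℝ) * P.L) * P.L := by field_simp
      linarith
    · have h4 : B v g * m / P.L ≤ t - A v g := by
        rw [div_le_iff₀ hL]
        linarith
      linarith

/-- **REC** -/
theorem goalREC (hE : GoalEX) (hW : GoalWIN) : GoalREC := by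
  intro V _ P θ _ hθ1 hθ
  have key : ∀ j0 ≤ P.J, ∃ R : ℕ → V → ZMod P.N → ℕ,
      ∀ j < j0, ∀ (v : V), ∀ a < P.qm,
        (1 - θ) / ((P.q : ℝ) * P.J) - 1 / ((P.q : ℝ) * P.L) ≤
            Pr (fun ω : P.Om => P.T R ω j v ∧ P.isC ω v (P.cl (P.part v) a)) ∧
          Pr (fun ω : P.Om => P.T R ω j v ∧ P.isC ω v (P.cl (P.part v) a)) ≤
            (1 - θ) / ((P.q : ℝ) * P.J) := by
    intro j0
    induction j0 with
    | zero => exact fun _ => ⟨fun _ _ _ => 0, fun j hj => absurd hj (Nat.not_lt_zero j)⟩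
    | succ j0 ih =>
      intro hj0
      obtain ⟨R, hR⟩ := ih (by omega)
      obtain ⟨R', hR', hR2⟩ := step P hE hW θ hθ1 hθ R j0 (by omega)
        (fun i hi v a ha => (hR i hi v a ha).2)
      refine ⟨R', fun j hj v a ha => ?_⟩
      rcases Nat.lt_succ_iff_lt_or_eq.1 hj with h | rfl
      · have h1 : Pr (fun ω : P.Om => P.T R' ω j v ∧ P.isC ω v (P.cl (P.part v) a))
            = Pr (fun ω : P.Om => P.T R ω j v ∧ P.isC ω v (P.cl (P.part v) a)) := by
          apply Pr_congr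
          intro ω
          rw [T_congr P R' R ω j v fun i hi => hR' i (by omega)]
        rw [h1]
        exact hR j h v a ha
      · exact hR2 v a ha
  exact key P.J le_rfl

end Pool.Agent.Helper87.Sey3
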